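import Pool.Agent.Lib.MP_a3e05c_co.FLIP.Path
import Pool.Agent.Lib.MP_a3e05c_co.KL.PDefs
import Pool.Agent.Lib.MP_a3e05c_co.KL.Free

/-!
# EULER: the path-flip lemma

If a non-full alive vertex has distance `r` from the alive vertex `w`, then
`PA hd A ≤ (1 - 2 ^ (-(r + 1))) * PA hd (A.erase w)` (here for `r = 1, 2, 3`, and for general paths
in the form `flip_card`).
-/

open Finset

namespace MP_a3e05c_co.KL

variable {V E : Type} [Fintype V] [DecidableEq V] [Fintype E] [DecidableEq E]

/-- the last vertex of a path -/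
def pend (hd : E → Bool → V) : E → Bool → List (E × Bool) → V
  | e, b, [] => hd e b
  | _, _, (p :: L) => pend hd p.1 p.2 L

/-- contribution of a directed edge to the sum of the signs at `v` -/
private def Flip_s (hd : E → Bool → V) (v : V) (p : E × Bool) : ℤ :=
  (if hd p.1 p.2 = v then 1 else 0) - (if hd p.1 (!p.2) = v then 1 else 0)

omit [Fintype V] [Fintype E] [DecidableEq E] in
private theorem Flip_tele (hd : E → Bool → V) (A : Finset V) (v : V) : ∀ (L : List (E × Bool))
    (e : E) (b : Bool), Pth hd A e b L → (((e, b) :: L).map (Flip_s hd v)).sum =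
      (if pend hd e b L = v then 1 else 0) - (if hd e (!b) = v then 1 else 0)
  | [], e, b, _ => by
      simp [Flip_s, pend]
  | p :: L, e, b, h => by
      unfold Pth at h
      obtain ⟨h3, h4, h5, h6, h7⟩ := h
      have ih := Flip_tele hd A v L p.1 p.2 h7
      rw [List.map_cons, List.sum_cons]
      have h8 : (((p.1, p.2) :: L).map (Flip_s hd v)).sum = ((p :: L).map (Flip_s hd v)).sum := rfl
      rw [← h8, ih, h4]
      show (if hd e b = v then (1 : ℤ) else 0) - (if hd e (!b) = v then 1 else 0) +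
        ((if pend hd p.1 p.2 L = v then 1 else 0) - (if hd e b = v then 1 else 0)) =
        (if pend hd p.1 p.2 L = v then 1 else 0) - (if hd e (!b) = v then 1 else 0)
      ring

omit [Fintype V] [Fintype E] [DecidableEq V] [DecidableEq E] in
private theorem Flip_nodup (hd : E → Bool → V) (A : Finset V) : ∀ (L : List (E × Bool))
    (e : E) (b : Bool), Pth hd A e b L → (((e, b) :: L).map Prod.fst).Nodup
  | [], e, b, _ => by simp
  | p :: L, e, b, h => by
      have h1 := h.ne
      unfold Pth at h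
      have ih := Flip_nodup hd A L p.1 p.2 h.2.2.2.2
      rw [List.map_cons, List.nodup_cons]
      refine ⟨?_, ih⟩
      intro h2
      rw [List.mem_map] at h2
      obtain ⟨q, hq, hq2⟩ := h2
      exact h1 q hq hq2.symm

/-- reversal of the edges of a list -/
def flipL (S : List E) (ω : E → Bool) : E → Bool := fun e => if e ∈ S then !ω e else ω e

omit [Fintype E] in
private theorem flipL_flipL (S : List E) (ω : E → Bool) : flipL S (flipL S ω) = ω := by
  funext e
  unfold flipL
  by_cases h : e ∈ S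
  · simp [h]
  · simp [h]

omit [Fintype V] in
private theorem Flip_sum {hd : E → Bool → V} {v : V} (hl : ∀ e b, hd e b = v → hd e (!b) ≠ v)
    {S : List E} (hS : S.Nodup) (ω : E → Bool) :
    ∑ e, sg hd (flipL S ω) v e = ∑ e, sg hd ω v e - 2 * (S.map (sg hd ω v)).sum := by
  have h1 : ∀ e, sg hd (flipL S ω) v e = sg hd ω v e - 2 * (if e ∈ S then sg hd ω v e else 0) := by
    intro e
    by_cases h : e ∈ S
    · rw [if_pos h]
      have h2 : flipL S ω e = !ω e := by
        unfold flipL
        rw [if_pos h]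
      unfold sg
      rw [h2, Bool.not_not]
      by_cases ha : hd e (ω e) = v
      · have hb : hd e (!ω e) ≠ v := hl e _ ha
        rw [if_neg hb, if_pos ha, if_pos ha]
        norm_num
      · rw [if_neg ha, if_neg ha]
        split_ifs <;> norm_num
    · rw [if_neg h]
      have h2 : flipL S ω e = ω e := by
        unfold flipL
        rw [if_neg h]
      unfold sg
      rw [h2]
      ring
  rw [Finset.sum_congr rfl fun e _ => h1 e, Finset.sum_sub_distrib, ← Finset.mul_sum,
    ← List.sum_toFinset _ hS, ← Finset.sum_filter]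
  congr 3
  ext e
  simp

omit [Fintype V] [Fintype E] [DecidableEq E] in
private theorem Flip_map {hd : E → Bool → V} {v : V} (hl : ∀ e b, hd e b = v → hd e (!b) ≠ v)
    (P : List (E × Bool)) {ω : E → Bool} (hω : ∀ q ∈ P, ω q.1 = q.2) :
    ((P.map Prod.fst).map (sg hd ω v)).sum = (P.map (Flip_s hd v)).sum := by
  rw [List.map_map]
  congr 1
  refine List.map_congr_left fun q hq => ?_
  show sg hd ω v q.1 = Flip_s hd v q
  unfold sg Flip_s
  rw [hω q hq]
  by_cases ha : hd q.1 q.2 = v
  · have hb : hd q.1 (!q.2) ≠ v := hl _ _ ha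
    rw [if_pos ha, if_pos ha, if_neg hb]
    norm_num
  · rw [if_neg ha, if_neg ha]
    split_ifs <;> norm_num

/-- **Path-flip lemma**, counting form. -/
theorem flip_card {hd : E → Bool → V} {A : Finset V} {w : V} (hw : w ∉ A)
    (hl : NLA hd (insert w A)) (hev : ∀ v ∈ A, Even (deg hd v)) {e : E} {b : Bool}
    {L : List (E × Bool)} (hs : hd e (!b) = w) (hP : Pth hd A e b L) (hend : pend hd e b L ≠ w)
    (hendA : pend hd e b L ∉ A) :
    (Om hd A).card + 2 ^ (L.length + 1) * (Om hd (insert w A)).card ≤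
      2 ^ (L.length + 1) * (Om hd A).card := by
  have hlA : NLA hd A := fun e h hA => hl e h (mem_insert_of_mem hA)
  have hhalf := path_half A hw L hd e b hlA hev (by rw [hs]; exact hw) hP
  set D := (Om hd A).filter fun ω => ω e = b ∧ ∀ q ∈ L, ω q.1 = q.2 with hD
  set S := ((e, b) :: L).map Prod.fst with hS
  have hSn : S.Nodup := Flip_nodup hd A L e b hP
  have hsub : Om hd (insert w A) ⊆ Om hd A := by
    intro ω hω
    rw [mem_Om] at hω ⊢
    exact fun v hv => hω v (mem_insert_of_mem hv)
  have hall : ∀ ω ∈ D, ∀ q ∈ (e, b) :: L, ω q.1 = q.2 := by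
    intro ω hω q hq
    rw [hD, mem_filter] at hω
    rcases List.mem_cons.1 hq with rfl | hq
    · exact hω.2.1
    · exact hω.2.2 q hq
  have hsumv : ∀ ω ∈ D, ∀ v ∈ insert w A, ∑ e', sg hd (flipL S ω) v e' =
      ∑ e', sg hd ω v e' - 2 * ((if pend hd e b L = v then 1 else 0) -
        (if w = v then 1 else 0)) := by
    intro ω hω v hv
    have hlv : ∀ e b, hd e b = v → hd e (!b) ≠ v := fun e b h => hl.ne hv h
    rw [Flip_sum hlv hSn, hS, Flip_map hlv _ (hall ω hω), Flip_tele hd A v L e b hP, hs]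
  have hflip : ∀ ω ∈ D, flipL S ω ∈ Om hd A := by
    intro ω hω
    have hωA : ω ∈ Om hd A := (mem_filter.1 hω).1
    rw [mem_Om] at hωA ⊢
    intro v hv
    have h1 := hωA v hv
    unfold Bal at h1 ⊢
    have h2 : ¬ pend hd e b L = v := fun h => hendA (h ▸ hv)
    have h3 : ¬ w = v := fun h => hw (h ▸ hv)
    rw [hsumv ω hω v (mem_insert_of_mem hv), h1, if_neg h2, if_neg h3]
    norm_num
  have hnb : ∀ ω ∈ D, Bal hd ω w → ¬ Bal hd (flipL S ω) w := by
    intro ω hω h1 h2
    unfold Bal at h1 h2
    rw [hsumv ω hω w (mem_insert_self w A), h1, if_neg hend, if_pos rfl] at h2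
    norm_num at h2
  have hinj : D.card ≤ (Om hd A \ Om hd (insert w A)).card := by
    refine Finset.card_le_card_of_injOn (fun ω => if Bal hd ω w then flipL S ω else ω) ?_ ?_
    · intro ω hω
      have hω' : ω ∈ D := hω
      have hωA : ω ∈ Om hd A := (mem_filter.1 hω').1
      show (if Bal hd ω w then flipL S ω else ω) ∈ ((Om hd A \ Om hd (insert w A) :
        Finset (E → Bool)) : Set (E → Bool))
      by_cases h : Bal hd ω w
      · rw [if_pos h, Finset.mem_coe, mem_sdiff]
        exact ⟨hflip ω hω', fun h2 => hnb ω hω' h (mem_Om.1 h2 w (mem_insert_self w A))⟩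
      · rw [if_neg h, Finset.mem_coe, mem_sdiff]
        exact ⟨hωA, fun h2 => h (mem_Om.1 h2 w (mem_insert_self w A))⟩
    · intro ω1 h1 ω2 h2 h12
      have h1' : ω1 ∈ D := h1
      have h2' : ω2 ∈ D := h2
      have he1 : ω1 e = b := (mem_filter.1 h1').2.1
      have he2 : ω2 e = b := (mem_filter.1 h2').2.1
      have heS : e ∈ S := by
        rw [hS, List.map_cons]
        exact List.mem_cons_self
      have hfe : ∀ ω : E → Bool, ω e = b → flipL S ω e = !b := by
        intro ω h
        unfold flipL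
        rw [if_pos heS, h]
      change (if Bal hd ω1 w then flipL S ω1 else ω1) =
        (if Bal hd ω2 w then flipL S ω2 else ω2) at h12
      by_cases hb1 : Bal hd ω1 w <;> by_cases hb2 : Bal hd ω2 w
      · rw [if_pos hb1, if_pos hb2] at h12
        have h3 := congrArg (flipL S) h12
        rw [flipL_flipL, flipL_flipL] at h3
        exact h3
      · rw [if_pos hb1, if_neg hb2] at h12
        have h3 := congrFun h12 e
        rw [hfe ω1 he1, he2] at h3
        cases b <;> simp at h3
      · rw [if_neg hb1, if_pos hb2] at h12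
        have h3 := congrFun h12 e
        rw [hfe ω2 he2, he1] at h3
        cases b <;> simp at h3
      · rw [if_neg hb1, if_neg hb2] at h12
        exact h12
  rw [card_sdiff_of_subset hsub] at hinj
  have hle := card_le_card hsub
  have h3 : D.card + (Om hd (insert w A)).card ≤ (Om hd A).card := by omega
  calc (Om hd A).card + 2 ^ (L.length + 1) * (Om hd (insert w A)).card
      ≤ 2 ^ (L.length + 1) * D.card + 2 ^ (L.length + 1) * (Om hd (insert w A)).card :=
        Nat.add_le_add_right hhalf _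
    _ = 2 ^ (L.length + 1) * (D.card + (Om hd (insert w A)).card) := by ring
    _ ≤ 2 ^ (L.length + 1) * (Om hd A).card := Nat.mul_le_mul_left _ h3

/-- **Path-flip lemma**, `PA` form. -/
theorem flip_PA {hd : E → Bool → V} (hl : NoLoop hd) (hev : ∀ v, Even (deg hd v)) {A : Finset V}
    {w : V} (hw : w ∈ A) {e : E} {b : Bool} {L : List (E × Bool)} (hs : hd e (!b) = w)
    (hP : Pth hd (A.erase w) e b L) (hend : pend hd e b L ∉ A) :
    PA hd A ≤ (1 - 1 / 2 ^ (L.length + 1)) * PA hd (A.erase w) := by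
  have hl' : NLA hd (insert w (A.erase w)) := fun e h _ => hl e h
  have h := flip_card (notMem_erase w A) hl' (fun v _ => hev v) hs hP
    (fun h => hend (h ▸ hw)) (fun h => hend (mem_of_mem_erase h))
  rw [insert_erase hw] at h
  have h1 : ((Om hd (A.erase w)).card : ℝ) + 2 ^ (L.length + 1) * (Om hd A).card ≤
      2 ^ (L.length + 1) * (Om hd (A.erase w)).card := by exact_mod_cast h
  have h2 : (0 : ℝ) < 2 ^ (L.length + 1) := by positivity
  have h3 : ((Om hd A).card : ℝ) ≤ (1 - 1 / 2 ^ (L.length + 1)) * (Om hd (A.erase w)).card := by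
    have h4 : (1 - 1 / 2 ^ (L.length + 1)) * ((Om hd (A.erase w)).card : ℝ) =
        (2 ^ (L.length + 1) * (Om hd (A.erase w)).card - (Om hd (A.erase w)).card) /
          2 ^ (L.length + 1) := by
      field_simp
    rw [h4, le_div_iff₀ h2]
    linarith
  unfold PA
  rw [mul_div_assoc']
  exact div_le_div_of_nonneg_right h3 (by positivity)

private theorem Flip_free {hd : E → Bool → V} (hl : NoLoop hd) {A : Finset V} {y : V}
    (hy : kk hd A y < deg hd y) : ∃ e b, hd e (!b) = y ∧ hd e b ∉ A := by
  have h1 := deg_eq hl A y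
  have h2 : 0 < (frees hd A y).card := by
    unfold kk at hy
    omega
  obtain ⟨e, he⟩ := card_pos.1 h2
  unfold frees at he
  rw [mem_filter] at he
  obtain ⟨-, b, h3, h4⟩ := he
  exact ⟨e, !b, by rw [Bool.not_not]; exact h3, h4⟩

omit [Fintype V] [Fintype E] [DecidableEq V] [DecidableEq E] in
private theorem Flip_ends {hd : E → Bool → V} {e e' : E} {b c : Bool} (h : e = e') :
    hd e b = hd e' c ∨ hd e b = hd e' (!c) := by
  subst h
  cases b <;> cases c <;> simp

/-- distance one -/
theorem flip_one {hd : E → Bool → V} (hs : Simple hd) (hev : ∀ v, Even (deg hd v)) {A : Finset V}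
    {w y : V} (hw : w ∈ A) (hy : y ∈ nb hd A w) (hyk : kk hd A y < deg hd y) :
    PA hd A ≤ 3 / 4 * PA hd (A.erase w) := by
  unfold nb at hy
  rw [mem_filter] at hy
  obtain ⟨hyA, e, b, h1, h2⟩ := hy
  obtain ⟨e', b', h3, h4⟩ := Flip_free hs.1 hyk
  have hyw : y ≠ w := by
    intro h
    rw [h] at h2
    cases b
    · exact hs.1 e (h2.trans h1.symm)
    · exact hs.1 e (h1.trans h2.symm)
  have hzw : hd e' b' ≠ w := fun h => h4 (h ▸ hw)
  have hne : e ≠ e' := by
    intro h
    rcases Flip_ends (hd := hd) (b := b) (c := b') h with h5 | h5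
    · exact hzw (h5.symm.trans h1)
    · exact hyw (h3.symm.trans (h5.symm.trans h1))
  have hP : Pth hd (A.erase w) e (!b) [(e', b')] := by
    unfold Pth
    refine ⟨?_, ?_, hne, by simp, ?_⟩
    · rw [h2]
      exact mem_erase.2 ⟨hyw, hyA⟩
    · rw [h3, h2]
    · unfold Pth
      exact fun h => h4 (mem_of_mem_erase h)
  have h := flip_PA hs.1 hev hw (b := !b) (by rw [Bool.not_not]; exact h1) hP h4
  norm_num at h
  exact h

/-- distance two -/
theorem flip_two {hd : E → Bool → V} (hs : Simple hd) (hev : ∀ v, Even (deg hd v)) {A : Finset V}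
    {w x y : V} (hw : w ∈ A) (hx : x ∈ nb hd A w) (hy : y ∈ nb hd A x) (hyw : y ≠ w)
    (hyk : kk hd A y < deg hd y) :
    PA hd A ≤ 7 / 8 * PA hd (A.erase w) := by
  unfold nb at hx hy
  rw [mem_filter] at hx hy
  obtain ⟨hxA, e, b, h1, h2⟩ := hx
  obtain ⟨hyA, e1, b1, h5, h6⟩ := hy
  obtain ⟨e', b', h3, h4⟩ := Flip_free hs.1 hyk
  have hxw : x ≠ w := by
    intro h
    rw [h] at h2
    cases b
    · exact hs.1 e (h2.trans h1.symm)
    · exact hs.1 e (h1.trans h2.symm)
  have hzw : hd e' b' ≠ w := fun h => h4 (h ▸ hw)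
  have hne1 : e ≠ e1 := by
    intro h
    rcases Flip_ends (hd := hd) (b := b) (c := b1) h with h7 | h7
    · exact hxw (h5.symm.trans (h7.symm.trans h1))
    · exact hyw (h6.symm.trans (h7.symm.trans h1))
  have hne : e ≠ e' := by
    intro h
    rcases Flip_ends (hd := hd) (b := b) (c := b') h with h7 | h7
    · exact hzw (h7.symm.trans h1)
    · exact hyw (h3.symm.trans (h7.symm.trans h1))
  have hne2 : e1 ≠ e' := by
    intro h
    rcases Flip_ends (hd := hd) (e := e') (e' := e1) (b := b') (c := b1) h.symm with h7 | h7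
    · exact h4 (by rw [h7, h5]; exact hxA)
    · exact h4 (by rw [h7, h6]; exact hyA)
  have hP : Pth hd (A.erase w) e (!b) [(e1, !b1), (e', b')] := by
    unfold Pth
    refine ⟨?_, ?_, hne1, by simpa using hne, ?_⟩
    · rw [h2]
      exact mem_erase.2 ⟨hxw, hxA⟩
    · show hd e1 (!!b1) = hd e (!b)
      rw [Bool.not_not, h5, h2]
    · unfold Pth
      refine ⟨?_, ?_, hne2, by simp, ?_⟩
      · show hd e1 (!b1) ∈ A.erase w
        rw [h6]
        exact mem_erase.2 ⟨hyw, hyA⟩
      · show hd e' (!b') = hd e1 (!b1)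
        rw [h3, h6]
      · unfold Pth
        exact fun h => h4 (mem_of_mem_erase h)
  have h := flip_PA hs.1 hev hw (b := !b) (by rw [Bool.not_not]; exact h1) hP h4
  norm_num at h
  exact h

/-- distance three -/
theorem flip_three {hd : E → Bool → V} (hs : Simple hd) (hev : ∀ v, Even (deg hd v))
    {A : Finset V} {w x x' y : V} (hw : w ∈ A) (hx : x ∈ nb hd A w) (hx' : x' ∈ nb hd A x)
    (hxw' : x' ≠ w) (hy : y ∈ nb hd A x') (hyw : y ≠ w) (hyx : y ≠ x)
    (hyk : kk hd A y < deg hd y) :
    PA hd A ≤ 15 / 16 * PA hd (A.erase w) := by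
  unfold nb at hx hx' hy
  rw [mem_filter] at hx hx' hy
  obtain ⟨hxA, e, b, h1, h2⟩ := hx
  obtain ⟨hxA', e1, b1, h5, h6⟩ := hx'
  obtain ⟨hyA, e2, b2, h8, h9⟩ := hy
  obtain ⟨e', b', h3, h4⟩ := Flip_free hs.1 hyk
  have hxw : x ≠ w := by
    intro h
    rw [h] at h2
    cases b
    · exact hs.1 e (h2.trans h1.symm)
    · exact hs.1 e (h1.trans h2.symm)
  have hxx : x' ≠ x := by
    intro h
    rw [h] at h6
    cases b1
    · exact hs.1 e1 (h6.trans h5.symm)
    · exact hs.1 e1 (h5.trans h6.symm)
  have hzw : hd e' b' ≠ w := fun h => h4 (h ▸ hw)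
  have hne1 : e ≠ e1 := by
    intro h
    rcases Flip_ends (hd := hd) (b := b) (c := b1) h with h7 | h7
    · exact hxw (h5.symm.trans (h7.symm.trans h1))
    · exact hxw' (h6.symm.trans (h7.symm.trans h1))
  have hne2 : e ≠ e2 := by
    intro h
    rcases Flip_ends (hd := hd) (b := b) (c := b2) h with h7 | h7
    · exact hxw' (h8.symm.trans (h7.symm.trans h1))
    · exact hyw (h9.symm.trans (h7.symm.trans h1))
  have hne : e ≠ e' := by
    intro h
    rcases Flip_ends (hd := hd) (b := b) (c := b') h with h7 | h7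
    · exact hzw (h7.symm.trans h1)
    · exact hyw (h3.symm.trans (h7.symm.trans h1))
  have hne12 : e1 ≠ e2 := by
    intro h
    rcases Flip_ends (hd := hd) (b := b1) (c := b2) h with h7 | h7
    · exact hxx (h8.symm.trans (h7.symm.trans h5))
    · exact hyx (h9.symm.trans (h7.symm.trans h5))
  have hne1' : e1 ≠ e' := by
    intro h
    rcases Flip_ends (hd := hd) (e := e') (e' := e1) (b := b') (c := b1) h.symm with h7 | h7
    · exact h4 (by rw [h7, h5]; exact hxA)
    · exact h4 (by rw [h7, h6]; exact hxA')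
  have hne2' : e2 ≠ e' := by
    intro h
    rcases Flip_ends (hd := hd) (e := e') (e' := e2) (b := b') (c := b2) h.symm with h7 | h7
    · exact h4 (by rw [h7, h8]; exact hxA')
    · exact h4 (by rw [h7, h9]; exact hyA)
  have hP : Pth hd (A.erase w) e (!b) [(e1, !b1), (e2, !b2), (e', b')] := by
    unfold Pth
    refine ⟨?_, ?_, hne1, by simpa using ⟨hne2, hne⟩, ?_⟩
    · rw [h2]
      exact mem_erase.2 ⟨hxw, hxA⟩
    · show hd e1 (!!b1) = hd e (!b)
      rw [Bool.not_not, h5, h2]
    · unfold Pth
      refine ⟨?_, ?_, hne12, by simpa using hne1', ?_⟩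
      · show hd e1 (!b1) ∈ A.erase w
        rw [h6]
        exact mem_erase.2 ⟨hxw', hxA'⟩
      · show hd e2 (!!b2) = hd e1 (!b1)
        rw [Bool.not_not, h8, h6]
      · unfold Pth
        refine ⟨?_, ?_, hne2', by simp, ?_⟩
        · show hd e2 (!b2) ∈ A.erase w
          rw [h9]
          exact mem_erase.2 ⟨hyw, hyA⟩
        · show hd e' (!b') = hd e2 (!b2)
          rw [h3, h9]
        · unfold Pth
          exact fun h => h4 (mem_of_mem_erase h)
  have h := flip_PA hs.1 hev hw (b := !b) (by rw [Bool.not_not]; exact h1) hP h4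
  norm_num at h
  exact h

end MP_a3e05c_co.KL
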