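import Pool.Agent.Lib.MP_a3e05c_co.FLIP.Differ

/-!
# EULER: negative correlation of two leaves

`differ_leaves`: two half-edges whose ends are outside `A` have the same direction in at most one
half of the orientations balanced on `A`.  `cov_leaves`: the covariance form for two edges from
vertices of `A` to the outside.
-/

open Finset

namespace MP_a3e05c_co.KL

variable {V E : Type} [Fintype V] [DecidableEq V] [Fintype E] [DecidableEq E]

/-- the symbol of the head: `inr false` for the two marked half-edges, `inr true` for the other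
ends outside `A` -/
private def Lv_pi (hd : E → Bool → V) (A : Finset V) (e0 e1 : E) (b0 b1 : Bool) (e : E) (b : Bool) :
    V ⊕ Bool :=
  if hd e b ∈ A then Sum.inl (hd e b)
  else if (e = e0 ∧ b = b0) ∨ (e = e1 ∧ b = b1) then Sum.inr false else Sum.inr true

private def Lv_c (p : E → Bool → V ⊕ Bool) (ω : E → Bool) (s : V ⊕ Bool) : ℕ :=
  (univ.filter fun e => p e (ω e) = s).card

omit [DecidableEq E] in
private theorem Lv_prod {R : Type} [CommRing R] (p : E → Bool → V ⊕ Bool)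
    (ω : E → Bool) (z : V ⊕ Bool → R) :
    ∏ v, z v ^ Lv_c p ω v = ∏ e, z (p e (ω e)) := by
  have h1 : ∀ v, z v ^ Lv_c p ω v =
      ∏ e ∈ univ.filter (fun e => p e (ω e) = v), z (p e (ω e)) := by
    intro v
    rw [Finset.prod_congr rfl (g := fun e => z v)
      (fun e he => by rw [(Finset.mem_filter.1 he).2])]
    rw [Finset.prod_const]
    rfl
  rw [Finset.prod_congr rfl (fun v _ => h1 v)]
  exact Finset.prod_fiberwise univ (fun e => p e (ω e)) (fun e => z (p e (ω e)))

private theorem Lv_sum {R : Type} [CommRing R] (p : E → Bool → V ⊕ Bool) (z : V ⊕ Bool → R) :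
    ∑ ω : E → Bool, ∏ v, z v ^ Lv_c p ω v = ∏ e, (z (p e true) + z (p e false)) := by
  rw [Finset.sum_congr rfl (fun ω _ => Lv_prod p ω z)]
  have h := Finset.prod_univ_sum (fun _ : E => (univ : Finset Bool)) (fun e b => z (p e b))
  rw [Fintype.piFinset_univ] at h
  rw [← h]
  refine Finset.prod_congr rfl (fun e _ => ?_)
  rw [Fintype.sum_bool]

omit [DecidableEq E] in
private theorem Lv_D (p : E → Bool → V ⊕ Bool) (ω : E → Bool) :
    ∑ v, Lv_c p ω v = Fintype.card E := by
  rw [← Finset.card_univ, Finset.card_eq_sum_card_fiberwise (f := fun e => p e (ω e)) (t := univ)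
    (fun e _ => Finset.mem_univ _)]
  rfl

private theorem Lv_q (p : E → Bool → V ⊕ Bool) (z : V ⊕ Bool → ℂ) (hz : ∀ v, 0 ≤ (z v).im) :
    ∑ ω : E → Bool, ∏ v, (z v).im ^ Lv_c p ω v ≤ ‖∑ ω : E → Bool, ∏ v, z v ^ Lv_c p ω v‖ := by
  rw [Lv_sum p (fun v => (z v).im), Lv_sum p z, norm_prod]
  refine Finset.prod_le_prod (fun e _ => ?_) (fun e _ => ?_)
  · exact add_nonneg (hz _) (hz _)
  · rw [← Complex.add_im]
    exact (Complex.im_le_norm _)

omit [Fintype V] in
/-- number of the two marked half-edges that are heads -/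
private theorem Lv_a {hd : E → Bool → V} {A : Finset V} {e0 e1 : E} (hne : e0 ≠ e1)
    {b0 b1 : Bool} (h0 : hd e0 b0 ∉ A) (h1 : hd e1 b1 ∉ A)
    (ω : E → Bool) : Lv_c (Lv_pi hd A e0 e1 b0 b1) ω (Sum.inr false) =
      (if ω e0 = b0 then 1 else 0) + (if ω e1 = b1 then 1 else 0) := by
  unfold Lv_c
  have h2 : (univ.filter fun e => Lv_pi hd A e0 e1 b0 b1 e (ω e) = Sum.inr false) =
      ({e0, e1} : Finset E).filter fun e => (e = e0 ∧ ω e = b0) ∨ (e = e1 ∧ ω e = b1) := by
    ext e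
    simp only [mem_filter, mem_univ, true_and, mem_insert, mem_singleton]
    unfold Lv_pi
    constructor
    · intro h
      by_cases hA : hd e (ω e) ∈ A
      · rw [if_pos hA] at h
        exact absurd h (by simp)
      · rw [if_neg hA] at h
        by_cases hB : (e = e0 ∧ ω e = b0) ∨ (e = e1 ∧ ω e = b1)
        · refine ⟨?_, hB⟩
          rcases hB with hB | hB
          · exact Or.inl hB.1
          · exact Or.inr hB.1
        · rw [if_neg hB] at h
          exact absurd h (by simp)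
    · rintro ⟨-, h3⟩
      have hA : hd e (ω e) ∉ A := by
        rcases h3 with ⟨rfl, h4⟩ | ⟨rfl, h4⟩
        · rw [h4]
          exact h0
        · rw [h4]
          exact h1
      rw [if_neg hA, if_pos h3]
  rw [h2, Finset.card_filter, Finset.sum_pair hne]
  have e0' : ((e0 = e0 ∧ ω e0 = b0) ∨ (e0 = e1 ∧ ω e0 = b1)) ↔ ω e0 = b0 := by
    constructor
    · rintro (h | h)
      · exact h.2
      · exact absurd h.1 hne
    · exact fun h => Or.inl ⟨rfl, h⟩
  have e1' : ((e1 = e0 ∧ ω e1 = b0) ∨ (e1 = e1 ∧ ω e1 = b1)) ↔ ω e1 = b1 := by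
    constructor
    · rintro (h | h)
      · exact absurd h.1.symm hne
      · exact h.2
    · exact fun h => Or.inr ⟨rfl, h⟩
  rw [if_congr e0' rfl rfl, if_congr e1' rfl rfl]

omit [Fintype V] in
private theorem Lv_c1 {hd : E → Bool → V} {A : Finset V} {e0 e1 : E} {b0 b1 : Bool} {v : V}
    (hv : v ∈ A) (ω : E → Bool) :
    Lv_c (Lv_pi hd A e0 e1 b0 b1) ω (Sum.inl v) = indeg hd ω v := by
  unfold Lv_c indeg
  congr 1
  ext e
  simp only [mem_filter, mem_univ, true_and]
  unfold Lv_pi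
  constructor
  · intro h
    by_cases hA : hd e (ω e) ∈ A
    · rw [if_pos hA] at h
      exact Sum.inl_injective h
    · rw [if_neg hA] at h
      by_cases hB : (e = e0 ∧ ω e = b0) ∨ (e = e1 ∧ ω e = b1)
      · rw [if_pos hB] at h
        exact absurd h (by simp)
      · rw [if_neg hB] at h
        exact absurd h (by simp)
  · intro h
    rw [if_pos (by rw [h]; exact hv), h]

/-- the set of extracted symbols -/
private def Lv_S (A : Finset V) : Finset (V ⊕ Bool) := A.map ⟨Sum.inl, Sum.inl_injective⟩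

private def Lv_m (hd : E → Bool → V) : V ⊕ Bool → ℕ := Sum.elim (fun v => deg hd v / 2) (fun _ => 0)

private theorem Lv_filter {hd : E → Bool → V} {A : Finset V} (hev : ∀ v ∈ A, Even (deg hd v))
    {e0 e1 : E} {b0 b1 : Bool} :
    (univ.filter fun ω : E → Bool => ∀ s ∈ Lv_S A,
      Lv_c (Lv_pi hd A e0 e1 b0 b1) ω s = Lv_m hd s) = Om hd A := by
  ext ω
  rw [mem_filter, mem_Om]
  constructor
  · rintro ⟨-, h⟩ v hv
    have h2 := h (Sum.inl v) (by
      unfold Lv_S
      rw [mem_map]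
      exact ⟨v, hv, rfl⟩)
    rw [Lv_c1 hv] at h2
    rw [bal_iff']
    obtain ⟨r, hr⟩ := hev v hv
    have h3 : Lv_m hd (Sum.inl v) = deg hd v / 2 := rfl
    omega
  · intro h
    refine ⟨mem_univ _, fun s hs => ?_⟩
    unfold Lv_S at hs
    rw [mem_map] at hs
    obtain ⟨v, hv, rfl⟩ := hs
    show Lv_c (Lv_pi hd A e0 e1 b0 b1) ω (Sum.inl v) = deg hd v / 2
    rw [Lv_c1 hv]
    have h1 := (bal_iff' hd ω v).1 (h v hv)
    omega

private theorem Lv_mfalse (A : Finset V) : (Sum.inr false : V ⊕ Bool) ∈ (Lv_S A)ᶜ := by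
  rw [mem_compl]
  unfold Lv_S
  rw [mem_map]
  rintro ⟨v, -, h⟩
  exact absurd h (by simp)

omit [DecidableEq E] in
private theorem Lv_rest {hd : E → Bool → V} {A : Finset V} {p : E → Bool → V ⊕ Bool}
    {ω : E → Bool} (h : ∀ s ∈ Lv_S A, Lv_c p ω s = Lv_m hd s) :
    ∑ s ∈ (Lv_S A)ᶜ, Lv_c p ω s = Fintype.card E - ∑ s ∈ Lv_S A, Lv_m hd s := by
  have h1 := Lv_D p ω
  rw [← Finset.sum_add_sum_compl (Lv_S A), Finset.sum_congr rfl h] at h1
  exact Nat.eq_sub_of_add_eq' h1

omit [DecidableEq E] in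
private theorem Lv_term {R : Type} [CommRing R] {hd : E → Bool → V} {A : Finset V}
    {p : E → Bool → V ⊕ Bool} {ω : E → Bool} (h : ∀ s ∈ Lv_S A, Lv_c p ω s = Lv_m hd s) (y z : R) :
    ∏ s ∈ (Lv_S A)ᶜ, (if s = Sum.inr false then y else z) ^ Lv_c p ω s =
      y ^ Lv_c p ω (Sum.inr false) *
        z ^ ((Fintype.card E - ∑ s ∈ Lv_S A, Lv_m hd s) - Lv_c p ω (Sum.inr false)) := by
  rw [← Finset.mul_prod_erase _ _ (Lv_mfalse A), if_pos rfl, ← Lv_rest h,
    ← Finset.add_sum_erase _ _ (Lv_mfalse A), Nat.add_sub_cancel_left,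
    ← Finset.prod_pow_eq_pow_sum]
  congr 1
  refine Finset.prod_congr rfl fun s hs => ?_
  rw [if_neg (ne_of_mem_erase hs)]

/-- **Negative correlation** of two half-edges with ends outside `A`. -/
theorem differ_leaves {hd : E → Bool → V} {A : Finset V} (hl : NLA hd A)
    (hev : ∀ v ∈ A, Even (deg hd v)) {e0 e1 : E} (hne : e0 ≠ e1)
    {b0 b1 : Bool} (h0 : hd e0 b0 ∉ A) (h1 : hd e1 b1 ∉ A) :
    (Om hd A).card ≤ 2 * ((Om hd A).filter fun ω => (ω e0 = b0 ↔ ω e1 = !b1)).card := by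
  rcases (Om hd A).eq_empty_or_nonempty with hemp | hnon
  · rw [hemp]
    simp
  set O := Om hd A with hO
  set c := Lv_c (Lv_pi hd A e0 e1 b0 b1) with hc
  set K := Fintype.card E - ∑ s ∈ Lv_S A, Lv_m hd s with hK
  have hfil := Lv_filter hev (e0 := e0) (e1 := e1) (b0 := b0) (b1 := b1)
  rw [← hc, ← hO] at hfil
  have hmem : ∀ ω ∈ O, ∀ s ∈ Lv_S A, c ω s = Lv_m hd s := by
    intro ω hω
    rw [← hfil, mem_filter] at hω
    exact hω.2
  have ha : ∀ ω, c ω (Sum.inr false) =
      (if ω e0 = b0 then 1 else 0) + (if ω e1 = b1 then 1 else 0) :=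
    fun ω => Lv_a hne h0 h1 ω
  -- the three classes
  set N2 := (O.filter fun ω => ω e0 = b0 ∧ ω e1 = b1).card with hN2
  set N0 := (O.filter fun ω => ω e0 = (!b0) ∧ ω e1 = !b1).card with hN0
  set N1 := (O.filter fun ω => (ω e0 = b0 ↔ ω e1 = !b1)).card with hN1
  have hb : ∀ a b : Bool, ¬ a = b ↔ a = !b := by decide
  have hsum : ∀ f : ℕ → ℂ, ∑ ω ∈ O, f (c ω (Sum.inr false)) = N0 * f 0 + N1 * f 1 + N2 * f 2 := by
    intro f
    have h2 : ∀ ω ∈ O, f (c ω (Sum.inr false)) =
        (if (ω e0 = (!b0) ∧ ω e1 = !b1) then f 0 else 0) +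
          (if (ω e0 = b0 ↔ ω e1 = !b1) then f 1 else 0) +
            (if (ω e0 = b0 ∧ ω e1 = b1) then f 2 else 0) := by
      intro ω _
      rw [ha]
      by_cases h3 : ω e0 = b0 <;> by_cases h4 : ω e1 = b1
      · have h5 : ¬ ω e0 = !b0 := fun h => by rw [h3] at h; cases b0 <;> simp at h
        have h6 : ¬ ω e1 = !b1 := fun h => by rw [h4] at h; cases b1 <;> simp at h
        simp [h3, h4]
      · have h6 : ω e1 = !b1 := (hb _ _).1 h4
        simp [h3, h6]
      · have h6 : ω e0 = !b0 := (hb _ _).1 h3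
        simp [h4, h6]
      · have h5 : ω e0 = !b0 := (hb _ _).1 h3
        have h6 : ω e1 = !b1 := (hb _ _).1 h4
        simp [h5, h6]
    rw [Finset.sum_congr rfl h2, Finset.sum_add_distrib, Finset.sum_add_distrib,
      ← Finset.sum_filter, ← Finset.sum_filter, ← Finset.sum_filter, Finset.sum_const,
      Finset.sum_const, Finset.sum_const, nsmul_eq_mul, nsmul_eq_mul, nsmul_eq_mul]
  have hcard : O.card = N0 + N1 + N2 := by
    have h2 := hsum fun _ => 1
    simp only [Finset.sum_const, nsmul_eq_mul, mul_one] at h2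
    exact_mod_cast h2
  have hrev : N0 = N2 := by
    have hr : ∀ ω ∈ O, (fun e => !ω e) ∈ O := by
      intro ω hω
      rw [hO, mem_Om] at hω ⊢
      intro v hv
      exact bal_rev' (fun e b h => hl.ne hv h) (hω v hv)
    refine Finset.card_bij (fun ω _ => fun e => !ω e) ?_ ?_ ?_
    · intro ω hω
      rw [mem_filter] at hω ⊢
      refine ⟨hr ω hω.1, ?_, ?_⟩
      · show (!ω e0) = b0
        rw [hω.2.1, Bool.not_not]
      · show (!ω e1) = b1
        rw [hω.2.2, Bool.not_not]
    · intro ω _ ω' _ h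
      funext e
      have h2 := congrFun h e
      exact Bool.not_inj h2
    · intro ω hω
      rw [mem_filter] at hω
      refine ⟨fun e => !ω e, ?_, ?_⟩
      · rw [mem_filter]
        refine ⟨hr ω hω.1, ?_, ?_⟩
        · show (!ω e0) = !b0
          rw [hω.2.1]
        · show (!ω e1) = !b1
          rw [hω.2.2]
      · funext e
        exact Bool.not_not _
  by_contra hcon
  have hlt : N1 < 2 * N2 := by omega
  -- the exponent is at least two
  have hK2 : 2 ≤ K := by
    have h2 : 0 < N2 := by omega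
    rw [hN2, Finset.card_pos] at h2
    obtain ⟨ω, hω⟩ := h2
    rw [mem_filter] at hω
    have h3 := ha ω
    rw [if_pos hω.2.1, if_pos hω.2.2] at h3
    have h4 := Lv_rest (hmem ω hω.1)
    rw [← Finset.add_sum_erase _ _ (Lv_mfalse A)] at h4
    have h5 : Lv_c (Lv_pi hd A e0 e1 b0 b1) ω (Sum.inr false) = 2 := h3
    omega
  set P : ℝ := √(2 * N2 + N1) with hP
  set Q : ℝ := √(2 * N2 - N1) with hQ
  have hlt' : (N1 : ℝ) < 2 * N2 := by exact_mod_cast hlt
  have hQ0 : 0 < Q := Real.sqrt_pos.2 (by linarith)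
  have hP2 : P ^ 2 = 2 * N2 + N1 := Real.sq_sqrt (by positivity)
  have hQ2 : Q ^ 2 = 2 * N2 - N1 := Real.sq_sqrt (by linarith)
  set z : ℂ := ⟨P, Q⟩ with hz
  set y : ℂ := ⟨-P, Q⟩ with hy
  have him : ∀ s : V ⊕ Bool, (if s = Sum.inr false then y else z).im = Q := by
    intro s
    split_ifs <;> rfl
  have hfam := qs_family (fun ω v => c ω v) _ (fun ω => Lv_D _ ω)
    (fun z hz => Lv_q (Lv_pi hd A e0 e1 b0 b1) z hz) (Lv_S A) (Lv_m hd)
    (fun s => if s = Sum.inr false then y else z) (fun s => by rw [him]; exact hQ0.le)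
  rw [hfil] at hfam
  have hz0 : ∑ ω ∈ O, ∏ s ∈ (Lv_S A)ᶜ,
      (if s = Sum.inr false then y else z) ^ c ω s = 0 := by
    have h2 : ∀ ω ∈ O, ∏ s ∈ (Lv_S A)ᶜ, (if s = Sum.inr false then y else z) ^ c ω s =
        (fun i => y ^ i * z ^ (K - i)) (c ω (Sum.inr false)) := by
      intro ω hω
      exact Lv_term (hmem ω hω) y z
    rw [Finset.sum_congr rfl h2, hsum fun i => y ^ i * z ^ (K - i)]
    have h3 : K = (K - 2) + 2 := by omega
    have h4 : z ^ (K - 0) = z ^ (K - 2) * z ^ 2 := by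
      rw [← pow_add]
      congr 1
    have h5 : z ^ (K - 1) = z ^ (K - 2) * z := by
      rw [← pow_succ]
      congr 1
      omega
    rw [h4, h5, hrev]
    have h6 : (N2 : ℂ) * (z ^ 2 + y ^ 2) + N1 * (y * z) = 0 := by
      apply Complex.ext
      · simp only [hz, hy, sq, Complex.add_re, Complex.mul_re, Complex.natCast_re,
          Complex.natCast_im, Complex.add_im, Complex.mul_im, Complex.zero_re]
        nlinarith [hP2, hQ2]
      · simp only [hz, hy, sq, Complex.add_re, Complex.mul_re, Complex.natCast_re,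
          Complex.natCast_im, Complex.add_im, Complex.mul_im, Complex.zero_im]
        ring
    linear_combination z ^ (K - 2) * h6
  rw [hz0, norm_zero] at hfam
  have hpos : 0 < ∑ ω ∈ O, ∏ s ∈ (Lv_S A)ᶜ,
      (if s = Sum.inr false then y else z).im ^ c ω s := by
    refine Finset.sum_pos (fun ω _ => Finset.prod_pos fun s _ => ?_) hnon
    rw [him]
    exact pow_pos hQ0 _
  linarith


omit [Fintype V] [Fintype E] [DecidableEq E] in
/-- the sign of an edge at one of its ends -/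
theorem sg_end {hd : E → Bool → V} {A : Finset V} (hl : NLA hd A) {v : V} (hv : v ∈ A) {e : E}
    {b : Bool} (h : hd e b = v) (ω : E → Bool) : sg hd ω v e = if ω e = b then 1 else -1 := by
  have h2 := hl.ne hv h
  unfold sg
  by_cases hb : ω e = b
  · rw [hb, if_pos h, if_pos rfl]
  · have hb' : ω e = !b := by
      cases b <;> cases hω : ω e <;> simp_all
    rw [if_neg hb, hb', if_neg h2, Bool.not_not, if_pos h]

/-- **Negative correlation of two leaves** (covariance form). -/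
theorem cov_leaves {hd : E → Bool → V} {A : Finset V} (hl : NLA hd A)
    (hev : ∀ v ∈ A, Even (deg hd v)) {x y : V} (hx : x ∈ A) (hy : y ∈ A) {e0 e1 : E}
    (h0 : e0 ∈ frees hd A x) (h1 : e1 ∈ frees hd A y) (hne : e0 ≠ e1) :
    ∑ ω ∈ Om hd A, sg hd ω x e0 * sg hd ω y e1 ≤ 0 := by
  unfold frees at h0 h1
  rw [mem_filter] at h0 h1
  obtain ⟨-, b0, h2, h3⟩ := h0
  obtain ⟨-, b1, h4, h5⟩ := h1
  have hdif := differ_leaves hl hev hne h3 h5
  have h6 : ∀ ω ∈ Om hd A, sg hd ω x e0 * sg hd ω y e1 =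
      1 - 2 * (if (ω e0 = (!b0) ↔ ω e1 = !!b1) then 1 else 0) := by
    intro ω _
    rw [sg_end hl hx h2, sg_end hl hy h4]
    cases b0 <;> cases b1 <;> cases h7 : ω e0 <;> cases h8 : ω e1 <;> simp
  rw [sum_congr rfl h6, sum_sub_distrib, ← mul_sum, sum_const, nsmul_eq_mul, mul_one,
    ← Finset.sum_filter, sum_const, nsmul_eq_mul, mul_one]
  have h9 : ((Om hd A).card : ℤ) ≤
      2 * (((Om hd A).filter fun ω => (ω e0 = (!b0) ↔ ω e1 = !!b1)).card : ℤ) := by
    exact_mod_cast hdif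
  linarith

/-- the covariance form of `differ`: any two edges at a balanced vertex -/
theorem cov_same {hd : E → Bool → V} {A : Finset V} (hl : NLA hd A)
    (hev : ∀ v ∈ A, Even (deg hd v)) {x : V} (hx : x ∈ A) {e0 e1 : E} {b0 b1 : Bool}
    (h0 : hd e0 b0 = x) (h1 : hd e1 b1 = x) (hne : e0 ≠ e1) :
    ∑ ω ∈ Om hd A, sg hd ω x e0 * sg hd ω x e1 ≤ 0 := by
  have hdif := differ hl hev hx hne h0 h1
  have h6 : ∀ ω ∈ Om hd A, sg hd ω x e0 * sg hd ω x e1 =
      1 - 2 * (if (ω e0 = b0 ↔ ω e1 = !b1) then 1 else 0) := by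
    intro ω _
    rw [sg_end hl hx h0, sg_end hl hx h1]
    cases b0 <;> cases b1 <;> cases h7 : ω e0 <;> cases h8 : ω e1 <;> simp
  rw [sum_congr rfl h6, sum_sub_distrib, ← mul_sum, sum_const, nsmul_eq_mul, mul_one,
    ← Finset.sum_filter, sum_const, nsmul_eq_mul, mul_one]
  have h9 : ((Om hd A).card : ℤ) ≤
      2 * (((Om hd A).filter fun ω => (ω e0 = b0 ↔ ω e1 = !b1)).card : ℤ) := by
    exact_mod_cast hdif
  linarith

end MP_a3e05c_co.KL
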