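import Pool.Agent.Lib.MP_a3e05c_co.KL.Defs
import Pool.Agent.Lib.MP_a3e05c_co.KL.QSd

/-!
# EULER: two edges at a balanced vertex are negatively correlated

`differ`: among the orientations balanced on `A`, at least one half have exactly one of the two
edges `e0`, `e1` (both at the vertex `x` of `A`) directed to `x`.  The edges are arbitrary (their
other ends may be in `A` or not).
-/

open Finset

namespace MP_a3e05c_co.KL

variable {V E : Type} [Fintype V] [DecidableEq V] [Fintype E] [DecidableEq E]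

/-- no loops at the vertices of `A` -/
def NLA (hd : E → Bool → V) (A : Finset V) : Prop := ∀ e, hd e true = hd e false → hd e true ∉ A

omit [Fintype V] [DecidableEq V] [Fintype E] [DecidableEq E] in
theorem NLA.ne {hd : E → Bool → V} {A : Finset V} (h : NLA hd A) {v : V} (hv : v ∈ A) {e : E}
    {b : Bool} (hb : hd e b = v) : hd e (!b) ≠ v := by
  intro h2
  cases b
  · have h3 := h e (h2.trans hb.symm)
    rw [show hd e true = v from h2] at h3
    exact h3 hv
  · have h3 := h e (hb.trans h2.symm)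
    rw [hb] at h3
    exact h3 hv

omit [Fintype V] [DecidableEq E] in
/-- the sum of the signs at `w` -/
theorem sum_sg_eq (hd : E → Bool → V) (ω : E → Bool) (w : V) :
    ∑ e, sg hd ω w e = 2 * (indeg hd ω w : ℤ) - (deg hd w : ℤ) := by
  have h1 : ∀ e, sg hd ω w e =
      2 * (if hd e (ω e) = w then (1 : ℤ) else 0) - (if ∃ b, hd e b = w then (1 : ℤ) else 0) := by
    intro e
    unfold sg
    by_cases h : hd e (ω e) = w
    · rw [if_pos h, if_pos h, if_pos ⟨_, h⟩]
      norm_num
    · rw [if_neg h, if_neg h]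
      by_cases h' : hd e (!ω e) = w
      · rw [if_pos h', if_pos ⟨_, h'⟩]
        norm_num
      · rw [if_neg h', if_neg]
        · norm_num
        · rintro ⟨b, hb⟩
          by_cases hbo : b = ω e
          · exact h (hbo ▸ hb)
          · have hbn : b = !ω e := by
              cases b <;> cases hω : ω e <;> simp_all
            exact h' (hbn ▸ hb)
  rw [Finset.sum_congr rfl (fun e _ => h1 e), Finset.sum_sub_distrib, ← Finset.mul_sum]
  unfold indeg deg
  rw [Finset.sum_boole, Finset.sum_boole]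

omit [Fintype V] [DecidableEq E] in
/-- `2 * indeg = deg` -/
theorem bal_iff' (hd : E → Bool → V) (ω : E → Bool) (w : V) :
    Bal hd ω w ↔ 2 * indeg hd ω w = deg hd w := by
  unfold Bal
  rw [sum_sg_eq]
  omega

omit [Fintype V] [DecidableEq E] in
/-- reversing all edges -/
theorem bal_rev' {hd : E → Bool → V} {v : V} (hl : ∀ e b, hd e b = v → hd e (!b) ≠ v)
    {ω : E → Bool} (h : Bal hd ω v) : Bal hd (fun e => !ω e) v := by
  unfold Bal at h ⊢
  have h1 : ∀ e, sg hd (fun e => !ω e) v e = -sg hd ω v e := by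
    intro e
    unfold sg
    simp only [Bool.not_not]
    by_cases ha : hd e (ω e) = v
    · have hb : hd e (!ω e) ≠ v := hl e _ ha
      rw [if_neg hb, if_pos ha, if_pos ha]
    · rw [if_neg ha, if_neg ha]
      split_ifs <;> norm_num
  rw [Finset.sum_congr rfl (fun e _ => h1 e), Finset.sum_neg_distrib, h, neg_zero]

/-- the symbol of the head: `inr true` outside `A`, `inr false` for `e0`, `e1` at `x` -/
private def Df_pi (hd : E → Bool → V) (A : Finset V) (x : V) (e0 e1 : E) (e : E) (b : Bool) :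
    V ⊕ Bool :=
  if hd e b ∈ A then
    (if hd e b = x ∧ (e = e0 ∨ e = e1) then Sum.inr false else Sum.inl (hd e b))
  else Sum.inr true

private def Df_c (p : E → Bool → V ⊕ Bool) (ω : E → Bool) (s : V ⊕ Bool) : ℕ :=
  (univ.filter fun e => p e (ω e) = s).card

omit [DecidableEq E] in
private theorem Df_prod {R : Type} [CommRing R] (p : E → Bool → V ⊕ Bool)
    (ω : E → Bool) (z : V ⊕ Bool → R) :
    ∏ v, z v ^ Df_c p ω v = ∏ e, z (p e (ω e)) := by
  have h1 : ∀ v, z v ^ Df_c p ω v =
      ∏ e ∈ univ.filter (fun e => p e (ω e) = v), z (p e (ω e)) := by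
    intro v
    rw [Finset.prod_congr rfl (g := fun e => z v)
      (fun e he => by rw [(Finset.mem_filter.1 he).2])]
    rw [Finset.prod_const]
    rfl
  rw [Finset.prod_congr rfl (fun v _ => h1 v)]
  exact Finset.prod_fiberwise univ (fun e => p e (ω e)) (fun e => z (p e (ω e)))

private theorem Df_sum {R : Type} [CommRing R] (p : E → Bool → V ⊕ Bool) (z : V ⊕ Bool → R) :
    ∑ ω : E → Bool, ∏ v, z v ^ Df_c p ω v = ∏ e, (z (p e true) + z (p e false)) := by
  rw [Finset.sum_congr rfl (fun ω _ => Df_prod p ω z)]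
  have h := Finset.prod_univ_sum (fun _ : E => (univ : Finset Bool)) (fun e b => z (p e b))
  rw [Fintype.piFinset_univ] at h
  rw [← h]
  refine Finset.prod_congr rfl (fun e _ => ?_)
  rw [Fintype.sum_bool]

omit [DecidableEq E] in
private theorem Df_D (p : E → Bool → V ⊕ Bool) (ω : E → Bool) :
    ∑ v, Df_c p ω v = Fintype.card E := by
  rw [← Finset.card_univ, Finset.card_eq_sum_card_fiberwise (f := fun e => p e (ω e)) (t := univ)
    (fun e _ => Finset.mem_univ _)]
  rfl

private theorem Df_q (p : E → Bool → V ⊕ Bool) (z : V ⊕ Bool → ℂ) (hz : ∀ v, 0 ≤ (z v).im) :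
    ∑ ω : E → Bool, ∏ v, (z v).im ^ Df_c p ω v ≤ ‖∑ ω : E → Bool, ∏ v, z v ^ Df_c p ω v‖ := by
  rw [Df_sum p (fun v => (z v).im), Df_sum p z, norm_prod]
  refine Finset.prod_le_prod (fun e _ => ?_) (fun e _ => ?_)
  · exact add_nonneg (hz _) (hz _)
  · rw [← Complex.add_im]
    exact (Complex.im_le_norm _)

omit [Fintype V] [Fintype E] [DecidableEq V] [DecidableEq E] in
private theorem Df_ends {hd : E → Bool → V} {A : Finset V} (hl : NLA hd A) {x : V} (hx : x ∈ A)
    {e : E} {b : Bool} (h : hd e b = x) (ω : E → Bool) : hd e (ω e) = x ↔ ω e = b := by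
  constructor
  · intro h2
    by_contra hne
    have h3 : ω e = !b := by
      cases b <;> cases hω : ω e <;> simp_all
    rw [h3] at h2
    exact hl.ne hx h h2
  · intro h2
    rw [h2, h]

omit [Fintype V] in
/-- number of the two edges directed to `x` -/
private theorem Df_a {hd : E → Bool → V} {A : Finset V} (hl : NLA hd A) {x : V} (hx : x ∈ A)
    {e0 e1 : E} (hne : e0 ≠ e1) {b0 b1 : Bool} (h0 : hd e0 b0 = x) (h1 : hd e1 b1 = x)
    (ω : E → Bool) : Df_c (Df_pi hd A x e0 e1) ω (Sum.inr false) =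
      (if ω e0 = b0 then 1 else 0) + (if ω e1 = b1 then 1 else 0) := by
  unfold Df_c
  have h2 : (univ.filter fun e => Df_pi hd A x e0 e1 e (ω e) = Sum.inr false) =
      ({e0, e1} : Finset E).filter fun e => hd e (ω e) = x := by
    ext e
    simp only [mem_filter, mem_univ, true_and, mem_insert, mem_singleton]
    unfold Df_pi
    constructor
    · intro h
      by_cases hA : hd e (ω e) ∈ A
      · rw [if_pos hA] at h
        by_cases hB : hd e (ω e) = x ∧ (e = e0 ∨ e = e1)
        · exact ⟨hB.2, hB.1⟩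
        · rw [if_neg hB] at h
          exact absurd h (by simp)
      · rw [if_neg hA] at h
        exact absurd h (by simp)
    · rintro ⟨h3, h4⟩
      rw [if_pos (by rw [h4]; exact hx), if_pos ⟨h4, h3⟩]
  rw [h2, Finset.card_filter, Finset.sum_pair hne]
  have e0' := Df_ends hl hx h0 ω
  have e1' := Df_ends hl hx h1 ω
  simp only [e0', e1']

omit [Fintype V] in
private theorem Df_c1 {hd : E → Bool → V} {A : Finset V} {x : V} {e0 e1 : E} {v : V} (hv : v ∈ A)
    (hvx : v ≠ x) (ω : E → Bool) :
    Df_c (Df_pi hd A x e0 e1) ω (Sum.inl v) = indeg hd ω v := by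
  unfold Df_c indeg
  congr 1
  ext e
  simp only [mem_filter, mem_univ, true_and]
  unfold Df_pi
  constructor
  · intro h
    by_cases hA : hd e (ω e) ∈ A
    · rw [if_pos hA] at h
      by_cases hB : hd e (ω e) = x ∧ (e = e0 ∨ e = e1)
      · rw [if_pos hB] at h
        exact absurd h (by simp)
      · rw [if_neg hB] at h
        exact Sum.inl_injective h
    · rw [if_neg hA] at h
      exact absurd h (by simp)
  · intro h
    rw [if_pos (by rw [h]; exact hv), if_neg, h]
    rintro ⟨h2, -⟩
    exact hvx (h.symm.trans h2)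

omit [Fintype V] in
private theorem Df_cx {hd : E → Bool → V} {A : Finset V} {x : V} (hx : x ∈ A) {e0 e1 : E}
    (ω : E → Bool) : Df_c (Df_pi hd A x e0 e1) ω (Sum.inl x) +
      Df_c (Df_pi hd A x e0 e1) ω (Sum.inr false) = indeg hd ω x := by
  unfold Df_c indeg
  rw [← Finset.card_union_of_disjoint]
  · congr 1
    ext e
    simp only [mem_union, mem_filter, mem_univ, true_and]
    unfold Df_pi
    constructor
    · intro h
      by_cases hA : hd e (ω e) ∈ A
      · rw [if_pos hA] at h
        by_cases hB : hd e (ω e) = x ∧ (e = e0 ∨ e = e1)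
        · exact hB.1
        · rw [if_neg hB] at h
          rcases h with h | h
          · exact Sum.inl_injective h
          · exact absurd h (by simp)
      · rw [if_neg hA] at h
        rcases h with h | h
        · exact absurd h (by simp)
        · exact absurd h (by simp)
    · intro h
      rw [if_pos (by rw [h]; exact hx)]
      by_cases hB : e = e0 ∨ e = e1
      · right
        rw [if_pos ⟨h, hB⟩]
      · left
        rw [if_neg fun h2 => hB h2.2, h]
  · rw [Finset.disjoint_left]
    intro e he he'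
    simp only [mem_filter, mem_univ, true_and] at he he'
    rw [he] at he'
    exact absurd he' (by simp)

omit [Fintype V] in
private theorem Df_ctot {hd : E → Bool → V} {A : Finset V} {x : V} {e0 e1 : E}
    (ω : E → Bool) : Df_c (Df_pi hd A x e0 e1) ω (Sum.inr true) + ∑ v ∈ A, indeg hd ω v =
      Fintype.card E := by
  have h1 : Df_c (Df_pi hd A x e0 e1) ω (Sum.inr true) =
      (univ.filter fun e => ¬ hd e (ω e) ∈ A).card := by
    unfold Df_c
    congr 1
    ext e
    simp only [mem_filter, mem_univ, true_and]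
    unfold Df_pi
    constructor
    · intro h hA
      rw [if_pos hA] at h
      by_cases hB : hd e (ω e) = x ∧ (e = e0 ∨ e = e1)
      · rw [if_pos hB] at h
        exact absurd h (by simp)
      · rw [if_neg hB] at h
        exact absurd h (by simp)
    · intro hA
      rw [if_neg hA]
  have h2 : ∑ v ∈ A, indeg hd ω v = (univ.filter fun e => hd e (ω e) ∈ A).card := by
    rw [Finset.card_eq_sum_card_fiberwise (f := fun e => hd e (ω e)) (t := A)]
    · refine Finset.sum_congr rfl fun v hv => ?_
      unfold indeg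
      rw [Finset.filter_filter]
      congr 1
      ext e
      simp only [mem_filter, mem_univ, true_and]
      constructor
      · intro h
        exact ⟨by rw [h]; exact hv, h⟩
      · exact fun h => h.2
    · intro e he
      exact (mem_filter.1 he).2
  rw [h1, h2, add_comm, Finset.card_filter_add_card_filter_not, Finset.card_univ]

/-- the set of extracted symbols -/
private def Df_S (A : Finset V) (x : V) : Finset (V ⊕ Bool) :=
  insert (Sum.inr true) ((A.erase x).map ⟨Sum.inl, Sum.inl_injective⟩)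

private def Df_m (hd : E → Bool → V) (A : Finset V) : V ⊕ Bool → ℕ :=
  Sum.elim (fun v => deg hd v / 2) (fun _ => Fintype.card E - ∑ v ∈ A, deg hd v / 2)

private theorem Df_filter {hd : E → Bool → V} {A : Finset V} (hev : ∀ v ∈ A, Even (deg hd v))
    {x : V} (hx : x ∈ A) {e0 e1 : E} (hne : (Om hd A).Nonempty) :
    (univ.filter fun ω : E → Bool => ∀ s ∈ Df_S A x,
      Df_c (Df_pi hd A x e0 e1) ω s = Df_m hd A s) = Om hd A := by
  have hind : ∀ ω ∈ Om hd A, ∀ v ∈ A, indeg hd ω v = deg hd v / 2 := by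
    intro ω hω v hv
    have h1 := (bal_iff' hd ω v).1 (mem_Om.1 hω v hv)
    omega
  have hle : ∑ v ∈ A, deg hd v / 2 ≤ Fintype.card E := by
    obtain ⟨ω, hω⟩ := hne
    rw [← Df_ctot (hd := hd) (A := A) (x := x) (e0 := e0) (e1 := e1) ω,
      Finset.sum_congr rfl (hind ω hω)]
    omega
  ext ω
  rw [mem_filter]
  constructor
  · rintro ⟨-, h⟩
    have h1 : ∀ v ∈ A, v ≠ x → indeg hd ω v = deg hd v / 2 := by
      intro v hv hvx
      have h2 := h (Sum.inl v) (by
        unfold Df_S
        rw [mem_insert, mem_map]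
        exact Or.inr ⟨v, mem_erase.2 ⟨hvx, hv⟩, rfl⟩)
      rw [Df_c1 hv hvx] at h2
      exact h2
    have h2 := h (Sum.inr true) (by
      unfold Df_S
      exact mem_insert_self _ _)
    have h3 := Df_ctot (hd := hd) (A := A) (x := x) (e0 := e0) (e1 := e1) ω
    rw [h2] at h3
    have h4 : Df_m hd A (Sum.inr true) = Fintype.card E - ∑ v ∈ A, deg hd v / 2 := rfl
    rw [h4, ← Finset.add_sum_erase A (indeg hd ω) hx,
      Finset.sum_congr (s₁ := A.erase x) rfl fun v hv =>
        h1 v (mem_of_mem_erase hv) (ne_of_mem_erase hv)] at h3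
    have h5 := Finset.add_sum_erase A (fun v => deg hd v / 2) hx
    have h6 : indeg hd ω x = deg hd x / 2 := by omega
    rw [mem_Om]
    intro v hv
    rw [bal_iff']
    have h7 := hev v hv
    obtain ⟨r, hr⟩ := h7
    by_cases hvx : v = x
    · subst hvx
      omega
    · have := h1 v hv hvx
      omega
  · intro hω
    refine ⟨mem_univ _, fun s hs => ?_⟩
    unfold Df_S at hs
    rw [mem_insert, mem_map] at hs
    rcases hs with rfl | ⟨v, hv, rfl⟩
    · have h3 := Df_ctot (hd := hd) (A := A) (x := x) (e0 := e0) (e1 := e1) ω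
      rw [Finset.sum_congr rfl (hind ω hω)] at h3
      show Df_c (Df_pi hd A x e0 e1) ω (Sum.inr true) =
        Fintype.card E - ∑ v ∈ A, deg hd v / 2
      omega
    · show Df_c (Df_pi hd A x e0 e1) ω (Sum.inl v) = deg hd v / 2
      rw [Df_c1 (mem_of_mem_erase hv) (ne_of_mem_erase hv)]
      exact hind ω hω v (mem_of_mem_erase hv)

private theorem Df_mfalse (A : Finset V) (x : V) : Sum.inr false ∈ (Df_S A x)ᶜ := by
  rw [mem_compl]
  unfold Df_S
  rw [mem_insert, mem_map]
  rintro (h | ⟨v, -, h⟩)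
  · exact absurd h (by simp)
  · exact absurd h (by simp)

/-- total exponent of the remaining symbols -/
private theorem Df_rest {hd : E → Bool → V} {A : Finset V} {x : V} {e0 e1 : E} {ω : E → Bool}
    (h : ∀ s ∈ Df_S A x, Df_c (Df_pi hd A x e0 e1) ω s = Df_m hd A s) :
    ∑ s ∈ (Df_S A x)ᶜ, Df_c (Df_pi hd A x e0 e1) ω s =
      Fintype.card E - ∑ s ∈ Df_S A x, Df_m hd A s := by
  have h1 := Df_D (Df_pi hd A x e0 e1) ω
  rw [← Finset.sum_add_sum_compl (Df_S A x), Finset.sum_congr rfl h] at h1
  exact Nat.eq_sub_of_add_eq' h1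

private theorem Df_term {R : Type} [CommRing R] {hd : E → Bool → V} {A : Finset V} {x : V}
    {e0 e1 : E} {ω : E → Bool}
    (h : ∀ s ∈ Df_S A x, Df_c (Df_pi hd A x e0 e1) ω s = Df_m hd A s) (y z : R) :
    ∏ s ∈ (Df_S A x)ᶜ, (if s = Sum.inr false then y else z) ^ Df_c (Df_pi hd A x e0 e1) ω s =
      y ^ Df_c (Df_pi hd A x e0 e1) ω (Sum.inr false) *
        z ^ ((Fintype.card E - ∑ s ∈ Df_S A x, Df_m hd A s) -
          Df_c (Df_pi hd A x e0 e1) ω (Sum.inr false)) := by
  rw [← Finset.mul_prod_erase _ _ (Df_mfalse A x), if_pos rfl, ← Df_rest h,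
    ← Finset.add_sum_erase _ _ (Df_mfalse A x), Nat.add_sub_cancel_left,
    ← Finset.prod_pow_eq_pow_sum]
  congr 1
  refine Finset.prod_congr rfl fun s hs => ?_
  rw [if_neg (ne_of_mem_erase hs)]

/-- **Negative correlation** of two edges at a balanced vertex. -/
theorem differ {hd : E → Bool → V} {A : Finset V} (hl : NLA hd A)
    (hev : ∀ v ∈ A, Even (deg hd v)) {x : V} (hx : x ∈ A) {e0 e1 : E} (hne : e0 ≠ e1)
    {b0 b1 : Bool} (h0 : hd e0 b0 = x) (h1 : hd e1 b1 = x) :
    (Om hd A).card ≤ 2 * ((Om hd A).filter fun ω => (ω e0 = b0 ↔ ω e1 = !b1)).card := by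
  rcases (Om hd A).eq_empty_or_nonempty with hemp | hnon
  · rw [hemp]
    simp
  set O := Om hd A with hO
  set c := Df_c (Df_pi hd A x e0 e1) with hc
  set K := Fintype.card E - ∑ s ∈ Df_S A x, Df_m hd A s with hK
  have hfil := Df_filter hev hx (e0 := e0) (e1 := e1) hnon
  rw [← hc, ← hO] at hfil
  have hmem : ∀ ω ∈ O, ∀ s ∈ Df_S A x, c ω s = Df_m hd A s := by
    intro ω hω
    rw [← hfil, mem_filter] at hω
    exact hω.2
  have ha : ∀ ω, c ω (Sum.inr false) =
      (if ω e0 = b0 then 1 else 0) + (if ω e1 = b1 then 1 else 0) :=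
    fun ω => Df_a hl hx hne h0 h1 ω
  -- the three classes
  set N2 := (O.filter fun ω => ω e0 = b0 ∧ ω e1 = b1).card with hN2
  set N0 := (O.filter fun ω => ω e0 = (!b0) ∧ ω e1 = !b1).card with hN0
  set N1 := (O.filter fun ω => (ω e0 = b0 ↔ ω e1 = !b1)).card with hN1
  have hb : ∀ a b : Bool, ¬ a = b ↔ a = !b := by decide
  have hsum : ∀ f : ℕ → ℂ, ∑ ω ∈ O, f (c ω (Sum.inr false)) = N0 * f 0 + N1 * f 1 + N2 * f 2 := by
    intro f
    have h2 : ∀ ω ∈ O, f (c ω (Sum.inr false)) =
        (if (ω e0 = (!b0) ∧ ω e1 = !b1) then f 0 else 0) +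
          (if (ω e0 = b0 ↔ ω e1 = !b1) then f 1 else 0) +
            (if (ω e0 = b0 ∧ ω e1 = b1) then f 2 else 0) := by
      intro ω _
      rw [ha]
      by_cases h3 : ω e0 = b0 <;> by_cases h4 : ω e1 = b1
      · have h5 : ¬ ω e0 = !b0 := fun h => by rw [h3] at h; cases b0 <;> simp at h
        have h6 : ¬ ω e1 = !b1 := fun h => by rw [h4] at h; cases b1 <;> simp at h
        simp [h3, h4]
      · have h6 : ω e1 = !b1 := (hb _ _).1 h4
        simp [h3, h6]
      · have h6 : ω e0 = !b0 := (hb _ _).1 h3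
        simp [h4, h6]
      · have h5 : ω e0 = !b0 := (hb _ _).1 h3
        have h6 : ω e1 = !b1 := (hb _ _).1 h4
        simp [h5, h6]
    rw [Finset.sum_congr rfl h2, Finset.sum_add_distrib, Finset.sum_add_distrib,
      ← Finset.sum_filter, ← Finset.sum_filter, ← Finset.sum_filter, Finset.sum_const,
      Finset.sum_const, Finset.sum_const, nsmul_eq_mul, nsmul_eq_mul, nsmul_eq_mul]
  have hcard : O.card = N0 + N1 + N2 := by
    have h2 := hsum fun _ => 1
    simp only [Finset.sum_const, nsmul_eq_mul, mul_one] at h2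
    exact_mod_cast h2
  have hrev : N0 = N2 := by
    have hr : ∀ ω ∈ O, (fun e => !ω e) ∈ O := by
      intro ω hω
      rw [hO, mem_Om] at hω ⊢
      intro v hv
      exact bal_rev' (fun e b h => hl.ne hv h) (hω v hv)
    refine Finset.card_bij (fun ω _ => fun e => !ω e) ?_ ?_ ?_
    · intro ω hω
      rw [mem_filter] at hω ⊢
      refine ⟨hr ω hω.1, ?_, ?_⟩
      · show (!ω e0) = b0
        rw [hω.2.1, Bool.not_not]
      · show (!ω e1) = b1
        rw [hω.2.2, Bool.not_not]
    · intro ω _ ω' _ h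
      funext e
      have h2 := congrFun h e
      exact Bool.not_inj h2
    · intro ω hω
      rw [mem_filter] at hω
      refine ⟨fun e => !ω e, ?_, ?_⟩
      · rw [mem_filter]
        refine ⟨hr ω hω.1, ?_, ?_⟩
        · show (!ω e0) = !b0
          rw [hω.2.1]
        · show (!ω e1) = !b1
          rw [hω.2.2]
      · funext e
        exact Bool.not_not _
  by_contra hcon
  have hlt : N1 < 2 * N2 := by omega
  -- the exponent is at least two
  have hK2 : 2 ≤ K := by
    have h2 : 0 < N2 := by omega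
    rw [hN2, Finset.card_pos] at h2
    obtain ⟨ω, hω⟩ := h2
    rw [mem_filter] at hω
    have h3 := ha ω
    rw [if_pos hω.2.1, if_pos hω.2.2] at h3
    have h4 := Df_rest (hmem ω hω.1)
    rw [← Finset.add_sum_erase _ _ (Df_mfalse A x)] at h4
    have h5 : Df_c (Df_pi hd A x e0 e1) ω (Sum.inr false) = 2 := h3
    omega
  set P : ℝ := √(2 * N2 + N1) with hP
  set Q : ℝ := √(2 * N2 - N1) with hQ
  have hlt' : (N1 : ℝ) < 2 * N2 := by exact_mod_cast hlt
  have hQ0 : 0 < Q := Real.sqrt_pos.2 (by linarith)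
  have hP2 : P ^ 2 = 2 * N2 + N1 := Real.sq_sqrt (by positivity)
  have hQ2 : Q ^ 2 = 2 * N2 - N1 := Real.sq_sqrt (by linarith)
  set z : ℂ := ⟨P, Q⟩ with hz
  set y : ℂ := ⟨-P, Q⟩ with hy
  have him : ∀ s : V ⊕ Bool, (if s = Sum.inr false then y else z).im = Q := by
    intro s
    split_ifs <;> rfl
  have hfam := qs_family (fun ω v => c ω v) _ (fun ω => Df_D _ ω)
    (fun z hz => Df_q (Df_pi hd A x e0 e1) z hz) (Df_S A x) (Df_m hd A)
    (fun s => if s = Sum.inr false then y else z) (fun s => by rw [him]; exact hQ0.le)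
  rw [hfil] at hfam
  have hz0 : ∑ ω ∈ O, ∏ s ∈ (Df_S A x)ᶜ,
      (if s = Sum.inr false then y else z) ^ c ω s = 0 := by
    have h2 : ∀ ω ∈ O, ∏ s ∈ (Df_S A x)ᶜ, (if s = Sum.inr false then y else z) ^ c ω s =
        (fun i => y ^ i * z ^ (K - i)) (c ω (Sum.inr false)) := by
      intro ω hω
      exact Df_term (hmem ω hω) y z
    rw [Finset.sum_congr rfl h2, hsum fun i => y ^ i * z ^ (K - i)]
    have h3 : K = (K - 2) + 2 := by omega
    have h4 : z ^ (K - 0) = z ^ (K - 2) * z ^ 2 := by
      rw [← pow_add]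
      congr 1
    have h5 : z ^ (K - 1) = z ^ (K - 2) * z := by
      rw [← pow_succ]
      congr 1
      omega
    rw [h4, h5, hrev]
    have h6 : (N2 : ℂ) * (z ^ 2 + y ^ 2) + N1 * (y * z) = 0 := by
      apply Complex.ext
      · simp only [hz, hy, sq, Complex.add_re, Complex.mul_re, Complex.natCast_re,
          Complex.natCast_im, Complex.add_im, Complex.mul_im, Complex.zero_re]
        nlinarith [hP2, hQ2]
      · simp only [hz, hy, sq, Complex.add_re, Complex.mul_re, Complex.natCast_re,
          Complex.natCast_im, Complex.add_im, Complex.mul_im, Complex.zero_im]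
        ring
    linear_combination z ^ (K - 2) * h6
  rw [hz0, norm_zero] at hfam
  have hpos : 0 < ∑ ω ∈ O, ∏ s ∈ (Df_S A x)ᶜ,
      (if s = Sum.inr false then y else z).im ^ c ω s := by
    refine Finset.sum_pos (fun ω _ => Finset.prod_pos fun s _ => ?_) hnon
    rw [him]
    exact pow_pos hQ0 _
  linarith

end MP_a3e05c_co.KL
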