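import Pool.Agent.Lib.MP_a3e05c_co.FLIP.Differ

/-!
# EULER: directed paths between two vertices outside `A`

`path_half`: at least the fraction `2 ^ (-(r + 1))` of the orientations balanced on `A` direct a
given path with `r` inner vertices, all in `A`, and both ends outside `A`, from its first to its
last vertex.  Proof: split off the pairs of edges of the path one after the other; by `differ` the
number of orientations does not decrease.
-/

open Finset

namespace MP_a3e05c_co.KL

variable {V E : Type} [Fintype V] [DecidableEq V] [Fintype E] [DecidableEq E]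

/-- the ends of `e0` and `e1` at `x` are moved to `o` -/
def liftH (hd : E → Bool → V) (x o : V) (e0 e1 : E) : E → Bool → V :=
  fun e b => if (e = e0 ∨ e = e1) ∧ hd e b = x then o else hd e b

omit [Fintype V] [Fintype E] in
theorem liftH_eq_iff {hd : E → Bool → V} {x o : V} {e0 e1 : E} {e : E} {b : Bool} {v : V}
    (hv : v ≠ x) (hvo : v ≠ o) : liftH hd x o e0 e1 e b = v ↔ hd e b = v := by
  unfold liftH
  by_cases h : (e = e0 ∨ e = e1) ∧ hd e b = x
  · rw [if_pos h, h.2]
    exact ⟨fun h2 => absurd h2.symm hvo, fun h2 => absurd h2.symm hv⟩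
  · rw [if_neg h]

omit [Fintype V] [Fintype E] in
theorem liftH_other {hd : E → Bool → V} {x o : V} {e0 e1 : E} {e : E} (h0 : e ≠ e0) (h1 : e ≠ e1)
    (b : Bool) : liftH hd x o e0 e1 e b = hd e b := by
  unfold liftH
  rw [if_neg]
  rintro ⟨h | h, -⟩
  · exact h0 h
  · exact h1 h

omit [Fintype V] [Fintype E] in
theorem liftH_nla {hd : E → Bool → V} {A : Finset V} (hl : NLA hd A) {x o : V} (ho : o ∉ A)
    (e0 e1 : E) : NLA (liftH hd x o e0 e1) A := by
  intro e h hA
  by_cases hT : (e = e0 ∨ e = e1) ∧ hd e true = x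
  · unfold liftH at hA
    rw [if_pos hT] at hA
    exact ho hA
  · by_cases hF : (e = e0 ∨ e = e1) ∧ hd e false = x
    · rw [h] at hA
      unfold liftH at hA
      rw [if_pos hF] at hA
      exact ho hA
    · unfold liftH at h hA
      rw [if_neg hT] at h hA
      rw [if_neg hF] at h
      exact hl e h hA

omit [Fintype V] in
theorem deg_liftH {hd : E → Bool → V} {A : Finset V} {x o : V} (ho : o ∉ A) (e0 e1 : E) {v : V}
    (hv : v ∈ A) (hvx : v ≠ x) : deg (liftH hd x o e0 e1) v = deg hd v := by
  have hvo : v ≠ o := fun h => ho (h ▸ hv)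
  unfold deg
  congr 1
  ext e
  simp only [mem_filter, mem_univ, true_and]
  simp only [liftH_eq_iff hvx hvo]

omit [Fintype V] in
theorem indeg_liftH {hd : E → Bool → V} {A : Finset V} {x o : V} (ho : o ∉ A) (e0 e1 : E) {v : V}
    (hv : v ∈ A) (hvx : v ≠ x) (ω : E → Bool) :
    indeg (liftH hd x o e0 e1) ω v = indeg hd ω v := by
  have hvo : v ≠ o := fun h => ho (h ▸ hv)
  unfold indeg
  congr 1
  ext e
  simp only [mem_filter, mem_univ, true_and]
  rw [liftH_eq_iff hvx hvo]

omit [Fintype V] in
theorem deg_liftH_x {hd : E → Bool → V} {x o : V} (hxo : x ≠ o) {e0 e1 : E} (hne : e0 ≠ e1)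
    {b0 b1 : Bool} (h0 : hd e0 b0 = x) (h1 : hd e1 b1 = x) :
    deg (liftH hd x o e0 e1) x + 2 = deg hd x := by
  have h2 : (univ.filter fun e => ∃ b, liftH hd x o e0 e1 e b = x) =
      (univ.filter fun e => ∃ b, hd e b = x) \ {e0, e1} := by
    ext e
    simp only [mem_filter, mem_univ, true_and, mem_sdiff, mem_insert, mem_singleton]
    constructor
    · rintro ⟨b, hb⟩
      by_cases h : (e = e0 ∨ e = e1) ∧ hd e b = x
      · unfold liftH at hb
        rw [if_pos h] at hb
        exact absurd hb.symm hxo
      · unfold liftH at hb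
        rw [if_neg h] at hb
        exact ⟨⟨b, hb⟩, fun h3 => h ⟨h3, hb⟩⟩
    · rintro ⟨⟨b, hb⟩, h3⟩
      refine ⟨b, ?_⟩
      unfold liftH
      rw [if_neg fun h => h3 h.1, hb]
  have h3 : ({e0, e1} : Finset E) ⊆ univ.filter fun e => ∃ b, hd e b = x := by
    intro e he
    rw [mem_insert, mem_singleton] at he
    rw [mem_filter]
    rcases he with rfl | rfl
    · exact ⟨mem_univ _, b0, h0⟩
    · exact ⟨mem_univ _, b1, h1⟩
  unfold deg
  rw [h2, card_sdiff_of_subset h3, card_pair hne]
  have h4 := card_le_card h3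
  rw [card_pair hne] at h4
  omega

omit [Fintype V] in
theorem indeg_liftH_x {hd : E → Bool → V} {A : Finset V} (hl : NLA hd A) {x o : V} (hx : x ∈ A)
    (hxo : x ≠ o) {e0 e1 : E} (hne : e0 ≠ e1) {b0 b1 : Bool} (h0 : hd e0 b0 = x)
    (h1 : hd e1 b1 = x) {ω : E → Bool} (hω : (ω e0 = b0 ↔ ω e1 = !b1)) :
    indeg (liftH hd x o e0 e1) ω x + 1 = indeg hd ω x := by
  have e0' : hd e0 (ω e0) = x ↔ ω e0 = b0 := by
    constructor
    · intro h2
      by_contra hn
      have h3 : ω e0 = !b0 := by
        cases b0 <;> cases hω : ω e0 <;> simp_all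
      rw [h3] at h2
      exact hl.ne hx h0 h2
    · intro h2
      rw [h2, h0]
  have e1' : hd e1 (ω e1) = x ↔ ω e1 = b1 := by
    constructor
    · intro h2
      by_contra hn
      have h3 : ω e1 = !b1 := by
        cases b1 <;> cases hω : ω e1 <;> simp_all
      rw [h3] at h2
      exact hl.ne hx h1 h2
    · intro h2
      rw [h2, h1]
  have h2 : (univ.filter fun e => liftH hd x o e0 e1 e (ω e) = x) =
      (univ.filter fun e => hd e (ω e) = x) \ (({e0, e1} : Finset E).filter fun e =>
        hd e (ω e) = x) := by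
    ext e
    simp only [mem_filter, mem_univ, true_and, mem_sdiff, mem_insert, mem_singleton]
    constructor
    · intro hb
      by_cases h : (e = e0 ∨ e = e1) ∧ hd e (ω e) = x
      · unfold liftH at hb
        rw [if_pos h] at hb
        exact absurd hb.symm hxo
      · unfold liftH at hb
        rw [if_neg h] at hb
        exact ⟨hb, h⟩
    · rintro ⟨hb, h3⟩
      unfold liftH
      rw [if_neg h3, hb]
  have h3 : (({e0, e1} : Finset E).filter fun e => hd e (ω e) = x).card = 1 := by
    rw [card_filter, sum_pair hne]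
    simp only [e0', e1']
    by_cases h : ω e0 = b0
    · have h4 : ω e1 = !b1 := hω.1 h
      have h5 : ¬ ω e1 = b1 := by
        rw [h4]
        cases b1 <;> decide
      rw [if_pos h, if_neg h5]
    · have h4 : ¬ ω e1 = !b1 := fun h5 => h (hω.2 h5)
      have h5 : ω e1 = b1 := by
        cases b1 <;> cases hω : ω e1 <;> simp_all
      rw [if_neg h, if_pos h5]
  have h4 : (({e0, e1} : Finset E).filter fun e => hd e (ω e) = x) ⊆
      univ.filter fun e => hd e (ω e) = x := by
    intro e he
    rw [mem_filter] at he ⊢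
    exact ⟨mem_univ _, he.2⟩
  have h5 := card_le_card h4
  unfold indeg
  rw [h2, card_sdiff_of_subset h4, h3]
  rw [h3] at h5
  omega

omit [Fintype V] in
/-- on the event of `differ` both graphs have the same balanced orientations -/
theorem mem_Om_liftH {hd : E → Bool → V} {A : Finset V} (hl : NLA hd A) {x o : V} (hx : x ∈ A)
    (ho : o ∉ A) {e0 e1 : E} (hne : e0 ≠ e1) {b0 b1 : Bool} (h0 : hd e0 b0 = x)
    (h1 : hd e1 b1 = x) {ω : E → Bool} (hω : (ω e0 = b0 ↔ ω e1 = !b1)) :
    ω ∈ Om (liftH hd x o e0 e1) A ↔ ω ∈ Om hd A := by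
  have hxo : x ≠ o := fun h => ho (h ▸ hx)
  have key : ∀ v ∈ A, (Bal (liftH hd x o e0 e1) ω v ↔ Bal hd ω v) := by
    intro v hv
    rw [bal_iff', bal_iff']
    by_cases hvx : v = x
    · subst hvx
      have h2 := deg_liftH_x hxo hne h0 h1
      have h3 := indeg_liftH_x hl hx hxo hne h0 h1 hω
      omega
    · rw [deg_liftH ho e0 e1 hv hvx, indeg_liftH ho e0 e1 hv hvx]
  rw [mem_Om, mem_Om]
  exact forall₂_congr key

omit [Fintype V] in
theorem even_liftH {hd : E → Bool → V} {A : Finset V} (hev : ∀ v ∈ A, Even (deg hd v)) {x o : V}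
    (ho : o ∉ A) (hx : x ∈ A) {e0 e1 : E} (hne : e0 ≠ e1) {b0 b1 : Bool} (h0 : hd e0 b0 = x)
    (h1 : hd e1 b1 = x) : ∀ v ∈ A, Even (deg (liftH hd x o e0 e1) v) := by
  intro v hv
  by_cases hvx : v = x
  · subst hvx
    have h2 := deg_liftH_x (o := o) (fun h => ho (h ▸ hv)) hne h0 h1
    have h3 := hev v hv
    rw [← h2, Nat.even_add] at h3
    exact h3.2 even_two
  · rw [deg_liftH ho e0 e1 hv hvx]
    exact hev v hv

omit [Fintype V] in
/-- an edge which does not touch `A` is free -/
theorem free_half {hd : E → Bool → V} {A : Finset V} {e : E} (he : ∀ b, hd e b ∉ A) (b0 : Bool)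
    (D : (E → Bool) → Prop) [DecidablePred D] (hD : ∀ ω b, D (Function.update ω e b) ↔ D ω) :
    ((Om hd A).filter D).card = 2 * ((Om hd A).filter fun ω => ω e = b0 ∧ D ω).card := by
  have hmem : ∀ ω ∈ Om hd A, ∀ c, Function.update ω e c ∈ Om hd A := by
    intro ω h c
    rw [mem_Om] at h ⊢
    intro v hv
    have h1 := h v hv
    unfold Bal at h1 ⊢
    rw [← h1]
    refine Finset.sum_congr rfl fun e' _ => ?_
    unfold sg
    by_cases h2 : e' = e
    · subst h2
      have h3 : ∀ b, hd e' b ≠ v := fun b hb => he b (hb ▸ hv)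
      rw [if_neg (h3 _), if_neg (h3 _), if_neg (h3 _), if_neg (h3 _)]
    · rw [Function.update_of_ne h2]
  have h1 : ((Om hd A).filter fun ω => ω e = (!b0) ∧ D ω).card =
      ((Om hd A).filter fun ω => ω e = b0 ∧ D ω).card := by
    refine Finset.card_bij (fun ω _ => Function.update ω e b0) ?_ ?_ ?_
    · intro ω hω
      rw [mem_filter] at hω ⊢
      exact ⟨hmem ω hω.1 _, by rw [Function.update_self], (hD _ _).2 hω.2.2⟩
    · intro ω hω ω' hω' h
      rw [mem_filter] at hω hω'
      funext e'
      by_cases h2 : e' = e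
      · subst h2
        rw [hω.2.1, hω'.2.1]
      · have h3 := congrFun h e'
        simp only [Function.update_of_ne h2] at h3
        exact h3
    · intro ω hω
      rw [mem_filter] at hω
      refine ⟨Function.update ω e (!b0), ?_, ?_⟩
      · rw [mem_filter]
        exact ⟨hmem ω hω.1 _, by rw [Function.update_self], (hD _ _).2 hω.2.2⟩
      · rw [Function.update_idem, ← hω.2.1, Function.update_eq_self]
  have h2 : (Om hd A).filter D = ((Om hd A).filter fun ω => ω e = (!b0) ∧ D ω) ∪
      ((Om hd A).filter fun ω => ω e = b0 ∧ D ω) := by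
    ext ω
    simp only [mem_union, mem_filter]
    constructor
    · rintro ⟨h3, h4⟩
      by_cases h5 : ω e = b0
      · exact Or.inr ⟨h3, h5, h4⟩
      · refine Or.inl ⟨h3, ?_, h4⟩
        cases b0 <;> cases hω : ω e <;> simp_all
    · rintro (⟨h3, -, h4⟩ | ⟨h3, -, h4⟩)
      · exact ⟨h3, h4⟩
      · exact ⟨h3, h4⟩
  rw [h2, card_union_of_disjoint, h1, two_mul]
  rw [Finset.disjoint_left]
  intro ω h3 h4
  rw [mem_filter] at h3 h4
  have h5 := h3.2.1
  rw [h4.2.1] at h5
  cases b0 <;> simp at h5

/-- the path which starts with the edge `e`, directed to its end `hd e b`, continues with the edges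
of the list (with directions) and ends at a vertex outside `A` -/
def Pth (hd : E → Bool → V) (A : Finset V) : E → Bool → List (E × Bool) → Prop
  | e, b, [] => hd e b ∉ A
  | e, b, (p :: L) => hd e b ∈ A ∧ hd p.1 (!p.2) = hd e b ∧ e ≠ p.1 ∧
      (∀ q ∈ L, e ≠ q.1) ∧ Pth hd A p.1 p.2 L

omit [Fintype V] [Fintype E] [DecidableEq V] [DecidableEq E] in
theorem Pth.congr {hd hd' : E → Bool → V} {A : Finset V} : ∀ (L : List (E × Bool)) (e : E)
    (b : Bool), hd' e b = hd e b → (∀ q ∈ L, ∀ c, hd' q.1 c = hd q.1 c) → Pth hd A e b L →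
      Pth hd' A e b L
  | [], e, b, h1, _, h => by
      unfold Pth at h ⊢
      rw [h1]
      exact h
  | p :: L, e, b, h1, h2, h => by
      unfold Pth at h ⊢
      obtain ⟨h3, h4, h5, h6, h7⟩ := h
      refine ⟨by rw [h1]; exact h3, ?_, h5, h6, ?_⟩
      · rw [h1, h2 p List.mem_cons_self]
        exact h4
      · exact Pth.congr L p.1 p.2 (h2 p List.mem_cons_self _)
          (fun q hq => h2 q (List.mem_cons_of_mem _ hq)) h7

omit [Fintype V] [Fintype E] [DecidableEq V] [DecidableEq E] in
theorem Pth.ne {hd : E → Bool → V} {A : Finset V} {e : E} {b : Bool} {L : List (E × Bool)}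
    (h : Pth hd A e b L) : ∀ q ∈ L, e ≠ q.1 := by
  cases L with
  | nil => simp
  | cons p L =>
    unfold Pth at h
    intro q hq
    rcases List.mem_cons.1 hq with rfl | hq
    · exact h.2.2.1
    · exact h.2.2.2.1 q hq

/-- **Lower bound for the number of orientations directing a path.** -/
theorem path_half (A : Finset V) {o : V} (ho : o ∉ A) : ∀ (L : List (E × Bool))
    (hd : E → Bool → V) (e : E) (b : Bool), NLA hd A → (∀ v ∈ A, Even (deg hd v)) →
      hd e (!b) ∉ A → Pth hd A e b L →
      (Om hd A).card ≤ 2 ^ (L.length + 1) *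
        ((Om hd A).filter fun ω => ω e = b ∧ ∀ q ∈ L, ω q.1 = q.2).card
  | [], hd, e, b, _, _, h1, h2 => by
      unfold Pth at h2
      have he : ∀ c, hd e c ∉ A := by
        intro c
        by_cases hc : c = b
        · rw [hc]
          exact h2
        · have hc' : c = !b := by
            cases b <;> cases c <;> simp_all
          rw [hc']
          exact h1
      have h3 := free_half he b (fun _ => True) (fun _ _ => Iff.rfl)
      rw [filter_true_of_mem fun _ _ => trivial] at h3
      simp only [List.length_nil, zero_add, pow_one, List.not_mem_nil, IsEmpty.forall_iff,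
        implies_true]
      exact h3.le
  | p :: L, hd, e, b, hl, hev, h1, h2 => by
      have hne' := h2.ne
      unfold Pth at h2
      obtain ⟨hx, hp, hne, hL, hP⟩ := h2
      set x := hd e b with hxdef
      set hd' := liftH hd x o e p.1 with hhd'
      have hPne := hP.ne
      have hlx : hd p.1 p.2 ≠ x := by
        have := hl.ne hx hp
        rwa [Bool.not_not] at this
      have hxo : x ≠ o := fun h => ho (h ▸ hx)
      -- `e` is free in the new graph
      have hfree : ∀ c, hd' e c ∉ A := by
        intro c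
        by_cases hc : c = b
        · rw [hc, hhd']
          unfold liftH
          rw [if_pos ⟨Or.inl rfl, hxdef.symm⟩]
          exact ho
        · have hc' : c = !b := by
            cases b <;> cases c <;> simp_all
          rw [hc', hhd']
          unfold liftH
          split_ifs
          · exact ho
          · exact h1
      have hp1 : hd' p.1 p.2 = hd p.1 p.2 := by
        rw [hhd']
        unfold liftH
        rw [if_neg fun h => hlx h.2]
      have hp2 : hd' p.1 (!p.2) ∉ A := by
        rw [hhd']
        unfold liftH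
        rw [if_pos ⟨Or.inr rfl, hp⟩]
        exact ho
      have hP' : Pth hd' A p.1 p.2 L := by
        refine Pth.congr L p.1 p.2 hp1 (fun q hq c => ?_) hP
        rw [hhd']
        exact liftH_other (fun h => hL q hq h.symm) (fun h => hPne q hq h.symm) c
      have ih := path_half A ho L hd' p.1 p.2 (liftH_nla hl ho e p.1)
        (even_liftH hev ho hx hne hxdef.symm hp) hp2 hP'
      -- first comparison
      have hd1 := differ hl hev hx hne hxdef.symm hp
      have hiff : ∀ ω : E → Bool, (ω e = b ↔ ω p.1 = !!p.2) →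
          (ω ∈ Om hd' A ↔ ω ∈ Om hd A) := fun ω hω => mem_Om_liftH hl hx ho hne hxdef.symm hp hω
      have hcomp : (Om hd A).card ≤ (Om hd' A).card := by
        have h3 : (Om hd A).filter (fun ω => (ω e = b ↔ ω p.1 = !!p.2)) =
            (Om hd' A).filter (fun ω => (ω e = b ↔ ω p.1 = !!p.2)) := by
          ext ω
          rw [mem_filter, mem_filter]
          constructor
          · rintro ⟨h4, h5⟩
            exact ⟨(hiff ω h5).2 h4, h5⟩
          · rintro ⟨h4, h5⟩
            exact ⟨(hiff ω h5).1 h4, h5⟩
        rw [h3] at hd1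
        have h4 := free_half hfree b (fun ω => ω p.1 = p.2) (fun ω c => by
          rw [Function.update_of_ne (Ne.symm hne)])
        have h5 := free_half hfree (!b) (fun ω => ¬ ω p.1 = p.2) (fun ω c => by
          rw [Function.update_of_ne (Ne.symm hne)])
        have h6 := card_filter_add_card_filter_not (s := Om hd' A) (fun ω => ω p.1 = p.2)
        have h7 : (Om hd' A).filter (fun ω => (ω e = b ↔ ω p.1 = !!p.2)) =
            ((Om hd' A).filter fun ω => ω e = b ∧ ω p.1 = p.2) ∪
              ((Om hd' A).filter fun ω => ω e = (!b) ∧ ¬ ω p.1 = p.2) := by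
          ext ω
          simp only [mem_union, mem_filter, Bool.not_not]
          constructor
          · rintro ⟨h8, h9⟩
            by_cases h10 : ω p.1 = p.2
            · exact Or.inl ⟨h8, h9.2 h10, h10⟩
            · refine Or.inr ⟨h8, ?_, h10⟩
              have h11 : ¬ ω e = b := fun h => h10 (h9.1 h)
              cases b <;> cases hω : ω e <;> simp_all
          · rintro (⟨h8, h9, h10⟩ | ⟨h8, h9, h10⟩)
            · exact ⟨h8, fun _ => h10, fun _ => h9⟩
            · refine ⟨h8, fun h => ?_, fun h => absurd h h10⟩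
              rw [h] at h9
              cases b <;> simp at h9
        have h8 := card_union_le ((Om hd' A).filter fun ω => ω e = b ∧ ω p.1 = p.2)
          ((Om hd' A).filter fun ω => ω e = (!b) ∧ ¬ ω p.1 = p.2)
        rw [h7] at hd1
        omega
      have hlast : ((Om hd' A).filter fun ω => ω p.1 = p.2 ∧ ∀ q ∈ L, ω q.1 = q.2).card =
          2 * ((Om hd A).filter fun ω => ω e = b ∧ ∀ q ∈ p :: L, ω q.1 = q.2).card := by
        rw [free_half hfree b (fun ω => ω p.1 = p.2 ∧ ∀ q ∈ L, ω q.1 = q.2)]
        · congr 2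
          ext ω
          rw [mem_filter, mem_filter]
          simp only [List.mem_cons, forall_eq_or_imp]
          constructor
          · rintro ⟨h4, h5, h6, h7⟩
            exact ⟨(hiff ω ⟨fun _ => by rw [Bool.not_not]; exact h6, fun _ => h5⟩).1 h4,
              h5, h6, h7⟩
          · rintro ⟨h4, h5, h6, h7⟩
            exact ⟨(hiff ω ⟨fun _ => by rw [Bool.not_not]; exact h6, fun _ => h5⟩).2 h4,
              h5, h6, h7⟩
        · intro ω c
          rw [Function.update_of_ne (Ne.symm hne)]
          have h3 : (∀ q ∈ L, Function.update ω e c q.1 = q.2) ↔ ∀ q ∈ L, ω q.1 = q.2 := by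
            refine forall₂_congr fun q hq => ?_
            rw [Function.update_of_ne (Ne.symm (hL q hq))]
          rw [h3]
      calc (Om hd A).card ≤ (Om hd' A).card := hcomp
        _ ≤ 2 ^ (L.length + 1) *
          ((Om hd' A).filter fun ω => ω p.1 = p.2 ∧ ∀ q ∈ L, ω q.1 = q.2).card := ih
        _ = 2 ^ ((p :: L).length + 1) *
          ((Om hd A).filter fun ω => ω e = b ∧ ∀ q ∈ p :: L, ω q.1 = q.2).card := by
            rw [hlast, List.length_cons]
            ring

end MP_a3e05c_co.KL
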